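import Pool.Agent.Lib.MP_60fb2a_nt.S.Top

/-!
MP_60fb2a_nt (Nagao's conjecture). Non-split quadratic twists over `ℚ(T)` of constant elliptic curves: the sum over all
squarefree `|d| ≤ X^c`, `c < 1/2`, of the squared difference between the Nagao sum up to `X` and the rank is bounded,
uniformly in `X`.
-/

set_option autoImplicit false

namespace Pool.Agent.Results.MP_60fb2a_nt.MeanSquare

open Polynomial Pool.Agent.Lib.NagA

theorem result (A B : ℤ[X]) (hdisc : 4 * A ^ 3 + 27 * B ^ 2 ≠ 0) (hconst : ConstTwist A B) (hsplit : ¬ Split A B)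
    (c : ℝ) (hc : c < 1 / 2) :
    ∃ K : ℝ, ∀ X : ℝ, 1 ≤ X → ∀ S : Finset ℤ, (∀ d ∈ S, Squarefree d ∧ |(d : ℝ)| ≤ X ^ c) →
      ∑ d ∈ S, (NS (twA d A) (twB d B) X - (rk (twA d A) (twB d B) : ℝ)) ^ 2 ≤ K :=
  topM A B hdisc hconst hsplit c hc

end Pool.Agent.Results.MP_60fb2a_nt.MeanSquare
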