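import Pool.Agent.Lib.MP_60fb2a_nt.S.Top

/-!
MP_60fb2a_nt (Nagao's conjecture). Non-split quadratic twists over `ℚ(T)` of constant elliptic curves: for almost all
squarefree `d` the natural Nagao sums of the quadratic twist by `d` are close to the rank of the twist, for all `X` in a
long range beginning at a power of `log |d|`.
-/

set_option autoImplicit false

namespace Pool.Agent.Results.MP_60fb2a_nt.NaturalAverages

open Polynomial Pool.Agent.Lib.NagA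

theorem result (A B : ℤ[X]) (hdisc : 4 * A ^ 3 + 27 * B ^ 2 ≠ 0) (hconst : ConstTwist A B) (hsplit : ¬ Split A B)
    (ε : ℝ) (hε : 0 < ε) :
    ∃ K : ℝ, ∀ θ a : ℝ, 0 < θ → θ ≤ 1 → 1 + 2 / θ < a → ∃ N₀ : ℕ, ∀ N : ℕ, N₀ ≤ N → ∀ Y : ℝ, 1 ≤ Y →
      (({d : ℤ | Squarefree d ∧ |d| ≤ N ∧ ∃ X : ℝ, Real.log |(d : ℝ)| ^ a ≤ X ∧ X ≤ Y ∧
        ε < |NS (twA d A) (twB d B) X - (rk (twA d A) (twB d B) : ℝ)|}).ncard : ℝ) ≤
      (N : ℝ) ^ θ + K * Real.log Y :=
  topA A B hdisc hconst hsplit ε hε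

end Pool.Agent.Results.MP_60fb2a_nt.NaturalAverages
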